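import Pool.Agent.H81.LE.Targets

/-!
# Arbitrarily large sparse sets force the Littlewood exponent to be infinite
-/

open scoped ENNReal
open Pool.Agent.H81.LE

namespace Pool.Agent.H97.LE

theorem split {Γ : Type*} [Group Γ] (K : ℕ) (S : Finset Γ) (h : Sparse K S) :
    ∃ g₁ g₂ : Γ → Γ → ℝ≥0∞,
      (∀ x y, g₁ x y + g₂ x y = (S : Set Γ).indicator (fun _ => 1) (x⁻¹ * y)) ∧
      (∀ x, ∑' y, g₁ x y ≤ K) ∧ (∀ y, ∑' x, g₂ x y ≤ K) := by
  classical
  let ι := {e : Γ × Γ // e.1⁻¹ * e.2 ∈ S}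
  let t : ι → Finset ((Γ ⊕ Γ) × Fin K) := fun e =>
    ({Sum.inl e.1.1, Sum.inr e.1.2} : Finset (Γ ⊕ Γ)) ×ˢ Finset.univ
  have hall : ∀ s : Finset ι, s.card ≤ (s.biUnion t).card := by
    intro s
    let A : Finset Γ := s.image fun e => e.1.1
    let B : Finset Γ := s.image fun e => e.1.2
    let E : Finset (Γ × Γ) := s.image fun e => e.1
    have hE : E.card = s.card := Finset.card_image_of_injective _ Subtype.val_injective
    have h1 : E.card ≤ K * (A.card + B.card) := by
      refine h A B E ?_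
      intro x hx
      obtain ⟨e, he, rfl⟩ := Finset.mem_image.1 hx
      exact ⟨Finset.mem_image.2 ⟨e, he, rfl⟩, Finset.mem_image.2 ⟨e, he, rfl⟩, e.2⟩
    have h2 : (A.disjSum B) ×ˢ (Finset.univ : Finset (Fin K)) ⊆ s.biUnion t := by
      rintro ⟨u, k⟩ hu
      rw [Finset.mem_product] at hu
      have hu1 := hu.1
      simp only at hu1
      rw [Finset.mem_disjSum] at hu1
      rw [Finset.mem_biUnion]
      rcases hu1 with ⟨a, ha, rfl⟩ | ⟨b, hb, rfl⟩
      · obtain ⟨e, he, rfl⟩ := Finset.mem_image.1 ha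
        exact ⟨e, he, by simp [t]⟩
      · obtain ⟨e, he, rfl⟩ := Finset.mem_image.1 hb
        exact ⟨e, he, by simp [t]⟩
    have h3 := Finset.card_le_card h2
    rw [Finset.card_product, Finset.card_disjSum, Finset.card_univ, Fintype.card_fin] at h3
    rw [← hE]
    refine h1.trans (le_trans (le_of_eq ?_) h3)
    ring
  obtain ⟨c, hcinj, hc⟩ := (Finset.all_card_le_biUnion_card_iff_exists_injective t).1 hall
  let P : Γ → Γ → Prop := fun x y => ∃ he : x⁻¹ * y ∈ S, (c ⟨(x, y), he⟩).1 = Sum.inl x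
  let Q : Γ → Γ → Prop := fun x y => ∃ he : x⁻¹ * y ∈ S, (c ⟨(x, y), he⟩).1 = Sum.inr y
  refine ⟨fun x y => if P x y then 1 else 0, fun x y => if Q x y then 1 else 0, ?_, ?_, ?_⟩
  · intro x y
    by_cases he : x⁻¹ * y ∈ S
    · have hm := hc ⟨(x, y), he⟩
      have hm' : (c ⟨(x, y), he⟩).1 = Sum.inl x ∨ (c ⟨(x, y), he⟩).1 = Sum.inr y := by
        simpa [t] using hm
      rw [Set.indicator_of_mem (by simpa using he)]
      rcases hm' with h1 | h1
      · have hP : P x y := ⟨he, h1⟩
        have hQ : ¬ Q x y := by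
          rintro ⟨_, h2⟩
          rw [h1] at h2
          exact absurd h2 (by simp)
        simp [hP, hQ]
      · have hQ : Q x y := ⟨he, h1⟩
        have hP : ¬ P x y := by
          rintro ⟨_, h2⟩
          rw [h1] at h2
          exact absurd h2 (by simp)
        simp [hP, hQ]
    · have hP : ¬ P x y := fun h => he h.1
      have hQ : ¬ Q x y := fun h => he h.1
      rw [Set.indicator_of_notMem (by simpa using he)]
      simp [hP, hQ]
  · intro x
    refine ENNReal.summable.tsum_le_of_sum_le ?_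
    intro s
    rw [Finset.sum_ite, Finset.sum_const_zero, add_zero, Finset.sum_const, nsmul_eq_mul, mul_one]
    have : (s.filter (P x)).card ≤ K := by
      have h1 := Fintype.card_le_of_injective
        (fun y : {y // y ∈ s.filter (P x)} =>
          (c ⟨(x, y.1), (Finset.mem_filter.1 y.2).2.1⟩).2) (by
          intro y z hyz
          have hy := (Finset.mem_filter.1 y.2).2.2
          have hz := (Finset.mem_filter.1 z.2).2.2
          have e := hcinj (Prod.ext (hy.trans hz.symm) hyz)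
          have e2 := congrArg (fun u : ι => u.1.2) e
          exact Subtype.ext e2)
      rwa [Fintype.card_coe, Fintype.card_fin] at h1
    exact_mod_cast this
  · intro y
    refine ENNReal.summable.tsum_le_of_sum_le ?_
    intro s
    rw [Finset.sum_ite, Finset.sum_const_zero, add_zero, Finset.sum_const, nsmul_eq_mul, mul_one]
    have : (s.filter (fun x => Q x y)).card ≤ K := by
      have h1 := Fintype.card_le_of_injective
        (fun x : {x // x ∈ s.filter (fun x => Q x y)} =>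
          (c ⟨(x.1, y), (Finset.mem_filter.1 x.2).2.1⟩).2) (by
          intro x z hxz
          have hx := (Finset.mem_filter.1 x.2).2.2
          have hz := (Finset.mem_filter.1 z.2).2.2
          have e := hcinj (Prod.ext (hx.trans hz.symm) hxz)
          have e2 := congrArg (fun u : ι => u.1.1) e
          exact Subtype.ext e2)
      rwa [Fintype.card_coe, Fintype.card_fin] at h1
    exact_mod_cast this

theorem lit.{u} : T_LIT.{u} := by
  intro Γ _ K hS
  classical
  have hset : {p : ℝ≥0∞ | 0 < p ∧ p < ∞ ∧ ∀ f ∈ T1 Γ, Memℓp f p} = ∅ := by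
    rw [Set.eq_empty_iff_forall_notMem]
    rintro p ⟨hp0, hp1, hp⟩
    choose S hc hsp using fun j : ℕ => hS ((2 ^ j) ^ j)
    choose g₁ g₂ hg hr hcol using fun j => split K (S j) (hsp j)
    let w : ℕ → ℝ≥0∞ := fun j => (2⁻¹ : ℝ≥0∞) ^ j
    have hw : ∑' j, w j = 2 := by
      simp only [w]
      rw [ENNReal.tsum_geometric, ENNReal.one_sub_inv_two, inv_inv]
    let F₁ : Γ → Γ → ℝ≥0∞ := fun x y => ∑' j, w j * g₁ j x y
    let F₂ : Γ → Γ → ℝ≥0∞ := fun x y => ∑' j, w j * g₂ j x y
    let F : Γ → ℝ≥0∞ := fun g => ∑' j, w j * (S j : Set Γ).indicator (fun _ => 1) g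
    have hF : ∀ x y, F (x⁻¹ * y) = F₁ x y + F₂ x y := by
      intro x y
      simp only [F, F₁, F₂]
      rw [← ENNReal.tsum_add]
      refine tsum_congr fun j => ?_
      rw [← mul_add, hg]
    have hFle : ∀ g, F g ≤ 2 := by
      intro g
      rw [← hw]
      refine ENNReal.tsum_le_tsum fun j => ?_
      calc w j * (S j : Set Γ).indicator (fun _ => 1) g ≤ w j * 1 := by
            gcongr
            exact Set.indicator_le_self' (fun _ _ => zero_le_one) g
        _ = w j := mul_one _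
    have hFt : ∀ g, F g ≠ ∞ := fun g => ne_top_of_le_ne_top (by simp) (hFle g)
    have hF1t : ∀ x y, F₁ x y ≠ ∞ := fun x y =>
      ne_top_of_le_ne_top (hFt (x⁻¹ * y)) (by rw [hF]; exact le_self_add)
    have hF2t : ∀ x y, F₂ x y ≠ ∞ := fun x y =>
      ne_top_of_le_ne_top (hFt (x⁻¹ * y)) (by rw [hF]; exact le_add_self)
    have hrow : ∀ x, ∑' y, F₁ x y ≤ 2 * K := by
      intro x
      simp only [F₁]
      rw [ENNReal.tsum_comm]
      calc ∑' j, ∑' y, w j * g₁ j x y ≤ ∑' j, w j * K := by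
            refine ENNReal.tsum_le_tsum fun j => ?_
            rw [ENNReal.tsum_mul_left]
            gcongr
            exact hr j x
        _ = 2 * K := by rw [ENNReal.tsum_mul_right, hw]
    have hcl : ∀ y, ∑' x, F₂ x y ≤ 2 * K := by
      intro y
      simp only [F₂]
      rw [ENNReal.tsum_comm]
      calc ∑' j, ∑' x, w j * g₂ j x y ≤ ∑' j, w j * K := by
            refine ENNReal.tsum_le_tsum fun j => ?_
            rw [ENNReal.tsum_mul_left]
            gcongr
            exact hcol j y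
        _ = 2 * K := by rw [ENNReal.tsum_mul_right, hw]
    have hen : ∀ a : ℝ≥0∞, a ≠ ∞ → ‖((a.toReal : ℝ) : ℂ)‖ₑ = a := by
      intro a ha
      rw [← ofReal_norm, Complex.norm_real, Real.norm_of_nonneg ENNReal.toReal_nonneg,
        ENNReal.ofReal_toReal ha]
    have hmem : (fun g => (((F g).toReal : ℝ) : ℂ)) ∈ T1 Γ := by
      refine ⟨fun x y => (((F₁ x y).toReal : ℝ) : ℂ), fun x y => (((F₂ x y).toReal : ℝ) : ℂ),
        ?_, ?_, ?_⟩
      · intro x y
        simp only
        rw [hF, ENNReal.toReal_add (hF1t x y) (hF2t x y), Complex.ofReal_add]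
      · refine lt_of_le_of_lt (iSup_le fun x => ?_) (show (2 * K : ℝ≥0∞) < ∞ from
          ENNReal.mul_lt_top (by simp) (by simp))
        refine le_trans (le_of_eq ?_) (hrow x)
        exact tsum_congr fun y => hen _ (hF1t x y)
      · refine lt_of_le_of_lt (iSup_le fun y => ?_) (show (2 * K : ℝ≥0∞) < ∞ from
          ENNReal.mul_lt_top (by simp) (by simp))
        refine le_trans (le_of_eq ?_) (hcl y)
        exact tsum_congr fun x => hen _ (hF2t x y)
    have hM := hp _ hmem
    have hpr : 0 < p.toReal := ENNReal.toReal_pos hp0.ne' hp1.ne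
    rw [memℓp_gen_iff hpr] at hM
    set C := ∑' g, ‖(((F g).toReal : ℝ) : ℂ)‖ ^ p.toReal with hC
    obtain ⟨j, hj⟩ := exists_nat_gt (max (p.toReal + 1) C)
    have hj1 : p.toReal + 1 < j := lt_of_le_of_lt (le_max_left _ _) hj
    have hj2 : C < j := lt_of_le_of_lt (le_max_right _ _) hj
    have h1 : ∑ g ∈ S j, ‖(((F g).toReal : ℝ) : ℂ)‖ ^ p.toReal ≤ C :=
      hM.sum_le_tsum _ (fun g _ => by positivity)
    have h2 : ∀ g ∈ S j, ((2⁻¹ : ℝ) ^ j) ^ p.toReal ≤ ‖(((F g).toReal : ℝ) : ℂ)‖ ^ p.toReal := by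
      intro g hgS
      rw [Complex.norm_real, Real.norm_of_nonneg ENNReal.toReal_nonneg]
      refine Real.rpow_le_rpow (by positivity) ?_ hpr.le
      have h3 : w j ≤ F g := by
        have h4 : w j * (S j : Set Γ).indicator (fun _ => 1) g ≤ F g :=
          ENNReal.le_tsum (f := fun j => w j * (S j : Set Γ).indicator (fun _ => 1) g) j
        rwa [Set.indicator_of_mem (by simpa using hgS), mul_one] at h4
      have h5 : (w j).toReal ≤ (F g).toReal := ENNReal.toReal_mono (hFt g) h3
      simpa [w] using h5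
    have h3 : ((S j).card : ℝ) * ((2⁻¹ : ℝ) ^ j) ^ p.toReal ≤ C := by
      refine le_trans ?_ h1
      rw [← nsmul_eq_mul]
      exact Finset.card_nsmul_le_sum _ _ _ h2
    have h4 : (((2 : ℝ) ^ j) ^ j) ≤ (S j).card := by exact_mod_cast hc j
    have h5 : (j : ℝ) ≤ ((2 : ℝ) ^ j) := by
      exact_mod_cast (Nat.lt_two_pow_self (n := j)).le
    have h6 : ((2 : ℝ) ^ j) ≤ (((2 : ℝ) ^ j) ^ j) * ((2⁻¹ : ℝ) ^ j) ^ p.toReal := by
      have e1 : ((2⁻¹ : ℝ) ^ j) = ((2 : ℝ) ^ j)⁻¹ := by rw [inv_pow]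
      rw [e1, Real.inv_rpow (by positivity), ← Real.rpow_neg (by positivity),
        ← Real.rpow_natCast ((2 : ℝ) ^ j) j, ← Real.rpow_add (by positivity)]
      calc ((2 : ℝ) ^ j) = ((2 : ℝ) ^ j) ^ (1 : ℝ) := (Real.rpow_one _).symm
        _ ≤ _ := Real.rpow_le_rpow_of_exponent_le (one_le_pow₀ (by norm_num)) (by linarith)
    have h7 : (((2 : ℝ) ^ j) ^ j) * ((2⁻¹ : ℝ) ^ j) ^ p.toReal ≤
        ((S j).card : ℝ) * ((2⁻¹ : ℝ) ^ j) ^ p.toReal := by gcongr
    linarith
  rw [Lit, hset, sInf_empty]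

end Pool.Agent.H97.LE
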