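import Pool.Agent.H81.LE.Targets

/-!
# A Möbius transformation close to the identity nearly preserves Lebesgue measure
-/

open scoped ENNReal MatrixGroups
open MeasureTheory
open Pool.Agent.H81.LE

namespace Pool.Agent.H97.LE

/-- The real estimates. -/
theorem mob_est {p q R δ : ℝ} (hR1 : 1 ≤ R) (hRp : |p| ≤ R) (hRq : |q| ≤ R) (hδ0 : 0 < δ)
    (hδ1 : δ * R ≤ 1 / 20) (f : ℝ ≃o ℝ) (w : SL(2, ℝ))
    (h00 : |w 0 0 - 1| ≤ δ) (h01 : |w 0 1| ≤ δ) (h10 : |w 1 0| ≤ δ) (h11 : |w 1 1 - 1| ≤ δ)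
    (hf : ∀ x ∈ Set.Icc p q, EqMob f w x) :
    (∀ x ∈ Set.Icc p q, |f x - x| ≤ 8 * δ * R ^ 2) ∧
    (∀ x ∈ Set.Icc p q, ∀ y ∈ Set.Icc p q, |x - y| ≤ (121 / 100) * |f x - f y|) := by
  have hdet : w 0 0 * w 1 1 - w 0 1 * w 1 0 = 1 := by
    rw [← Matrix.det_fin_two]; exact w.2
  have hxR : ∀ x ∈ Set.Icc p q, |x| ≤ R := by
    intro x hx
    rw [abs_le] at *
    exact ⟨by linarith [hx.1], by linarith [hx.2]⟩
  have hD : ∀ x ∈ Set.Icc p q, |(w 1 0 * x + w 1 1) - 1| ≤ 1 / 10 := by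
    intro x hx
    calc |(w 1 0 * x + w 1 1) - 1| = |w 1 0 * x + (w 1 1 - 1)| := by ring_nf
      _ ≤ |w 1 0 * x| + |w 1 1 - 1| := abs_add_le _ _
      _ ≤ δ * R + δ := by
          rw [abs_mul]
          have := hxR x hx
          gcongr
      _ ≤ δ * R + δ * R := by nlinarith
      _ ≤ 1 / 10 := by linarith
  constructor
  · intro x hx
    obtain ⟨hne, he⟩ := hf x hx
    have h1 := abs_le.1 (hD x hx)
    have hpos : 0 < w 1 0 * x + w 1 1 := by linarith [h1.1]
    have e : f x - x = (w 0 0 * x + w 0 1 - x * (w 1 0 * x + w 1 1)) / (w 1 0 * x + w 1 1) := by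
      rw [he, sub_div, mul_div_cancel_right₀ _ hne]
    rw [e, abs_div, abs_of_pos hpos, div_le_iff₀ hpos]
    have h2 : |w 0 0 * x + w 0 1 - x * (w 1 0 * x + w 1 1)| ≤ 4 * δ * R ^ 2 := by
      have e2 : w 0 0 * x + w 0 1 - x * (w 1 0 * x + w 1 1) =
          (w 0 0 - 1) * x + w 0 1 + (-(w 1 0) * x ^ 2) + (-(w 1 1 - 1) * x) := by ring
      rw [e2]
      have hx1 := hxR x hx
      have hx2 : |x| ^ 2 ≤ R ^ 2 := by gcongr
      calc |(w 0 0 - 1) * x + w 0 1 + (-(w 1 0) * x ^ 2) + (-(w 1 1 - 1) * x)| ≤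
            |(w 0 0 - 1) * x| + |w 0 1| + |-(w 1 0) * x ^ 2| + |-(w 1 1 - 1) * x| := by
              refine (abs_add_le _ _).trans ?_
              gcongr
              refine (abs_add_le _ _).trans ?_
              gcongr
              exact abs_add_le _ _
        _ ≤ δ * R + δ + δ * R ^ 2 + δ * R := by
              rw [abs_mul, abs_mul, abs_mul, abs_neg, abs_neg, abs_pow]
              gcongr
        _ ≤ 4 * δ * R ^ 2 := by
              have : R ≤ R ^ 2 := by nlinarith
              nlinarith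
    have h3 : (0 : ℝ) ≤ 8 * δ * R ^ 2 := by positivity
    nlinarith [h1.1]
  · intro x hx y hy
    obtain ⟨hnex, hex⟩ := hf x hx
    obtain ⟨hney, hey⟩ := hf y hy
    have h1 := abs_le.1 (hD x hx)
    have h2 := abs_le.1 (hD y hy)
    have hpx : 0 < w 1 0 * x + w 1 1 := by linarith [h1.1]
    have hpy : 0 < w 1 0 * y + w 1 1 := by linarith [h2.1]
    have e : x - y = ((w 1 0 * x + w 1 1) * (w 1 0 * y + w 1 1)) * (f x - f y) := by
      rw [hex, hey, mul_sub]
      have a1 : (w 1 0 * x + w 1 1) * (w 1 0 * y + w 1 1) *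
          ((w 0 0 * x + w 0 1) / (w 1 0 * x + w 1 1)) =
          (w 1 0 * y + w 1 1) * (w 0 0 * x + w 0 1) := by
        field_simp
      have a2 : (w 1 0 * x + w 1 1) * (w 1 0 * y + w 1 1) *
          ((w 0 0 * y + w 0 1) / (w 1 0 * y + w 1 1)) =
          (w 1 0 * x + w 1 1) * (w 0 0 * y + w 0 1) := by
        field_simp
      rw [a1, a2]
      linear_combination (-(x - y)) * hdet
    rw [e, abs_mul, abs_of_pos (mul_pos hpx hpy)]
    gcongr
    nlinarith [h1.2, h2.2]

theorem ovl : T_OVL := by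
  intro p q hpq
  set R : ℝ := max (max |p| |q|) 1 with hR
  have hR1 : 1 ≤ R := le_max_right _ _
  have hRp : |p| ≤ R := (le_max_left _ _).trans (le_max_left _ _)
  have hRq : |q| ≤ R := (le_max_right _ _).trans (le_max_left _ _)
  have hR0 : 0 < R := by linarith
  have hqp : 0 < q - p := by linarith
  refine ⟨min (1 / (20 * R)) ((q - p) / (64 * R ^ 2)), by positivity, ?_⟩
  set δ : ℝ := min (1 / (20 * R)) ((q - p) / (64 * R ^ 2)) with hδ
  intro f w h00 h01 h10 h11 hf
  have hδ0 : 0 < δ := by positivity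
  have hδ1 : δ * R ≤ 1 / 20 := by
    have : δ ≤ 1 / (20 * R) := min_le_left _ _
    calc δ * R ≤ 1 / (20 * R) * R := by gcongr
      _ = 1 / 20 := by field_simp
  have hδ2 : 8 * δ * R ^ 2 ≤ (q - p) / 8 := by
    have : δ ≤ (q - p) / (64 * R ^ 2) := min_le_right _ _
    calc 8 * δ * R ^ 2 ≤ 8 * ((q - p) / (64 * R ^ 2)) * R ^ 2 := by gcongr
      _ = (q - p) / 8 := by field_simp; norm_num
  obtain ⟨hA, hB⟩ := mob_est hR1 hRp hRq hδ0 hδ1 f w h00 h01 h10 h11 hf
  set η := 8 * δ * R ^ 2 with hη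
  set J : Set ℝ := Set.Icc p q ∩ f ⁻¹' Set.Icc p q with hJ
  have hfm : Measurable f := f.continuous.measurable
  have hJm : MeasurableSet J := measurableSet_Icc.inter (hfm measurableSet_Icc)
  have hJs : Set.Icc (p + η) (q - η) ⊆ J := by
    intro x hx
    have hη0 : 0 ≤ η := by positivity
    have hx1 : x ∈ Set.Icc p q := ⟨by linarith [hx.1], by linarith [hx.2]⟩
    have := abs_le.1 (hA x hx1)
    exact ⟨hx1, by linarith [hx.1, this.1], by linarith [hx.2, this.2]⟩
  set c : ℝ≥0∞ := ENNReal.ofReal (121 / 100) with hc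
  have hc0 : c ≠ 0 := by simp [hc]
  have hct : c ≠ ∞ := ENNReal.ofReal_ne_top
  have hc1 : 1 ≤ c := by
    rw [hc, ← ENNReal.ofReal_one]
    exact ENNReal.ofReal_le_ofReal (by norm_num)
  refine ⟨c⁻¹ • (nu p q).restrict J, ?_, ?_, ?_⟩
  · rw [Measure.le_iff]
    intro s hs
    rw [Measure.smul_apply, smul_eq_mul]
    calc c⁻¹ * (nu p q).restrict J s ≤ 1 * nu p q s := by
          gcongr
          · exact ENNReal.inv_le_one.2 hc1
          · exact Measure.restrict_le_self
      _ = nu p q s := one_mul _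
  · rw [Measure.le_iff]
    intro E hE
    rw [Measure.map_apply hfm hE, Measure.smul_apply, smul_eq_mul,
      Measure.restrict_apply (hfm hE), nu, Measure.smul_apply, Measure.smul_apply, smul_eq_mul,
      smul_eq_mul, Measure.restrict_apply ((hfm hE).inter hJm), Measure.restrict_apply hE]
    set G : Set ℝ := f ⁻¹' E ∩ J ∩ Set.Icc p q with hG
    have hGl : LipschitzOnWith (121 / 100) f.symm (f '' G) := by
      refine LipschitzOnWith.of_dist_le_mul ?_
      rintro _ ⟨x, hx, rfl⟩ _ ⟨y, hy, rfl⟩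
      rw [f.symm_apply_apply, f.symm_apply_apply, Real.dist_eq, Real.dist_eq]
      have := hB x hx.2 y hy.2
      push_cast
      exact this
    have h1 := hGl.hausdorffMeasure_image_le (d := 1) zero_le_one
    rw [hausdorffMeasure_real] at h1
    have h2 : f.symm '' (f '' G) = G := by
      rw [Set.image_image]
      simp
    rw [h2, ENNReal.rpow_one] at h1
    have h3 : f '' G ⊆ E ∩ Set.Icc p q := by
      rintro _ ⟨x, hx, rfl⟩
      exact ⟨hx.1.1, hx.1.2.2⟩
    have h4 : ((121 / 100 : NNReal) : ℝ≥0∞) = c := by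
      rw [hc, ENNReal.ofReal]
      congr 1
      rw [eq_comm, Real.toNNReal_eq_iff_eq_coe (by norm_num)]
      push_cast
      rfl
    rw [h4] at h1
    calc c⁻¹ * ((ENNReal.ofReal (q - p))⁻¹ * volume G) ≤
          c⁻¹ * ((ENNReal.ofReal (q - p))⁻¹ * (c * volume (E ∩ Set.Icc p q))) := by
            gcongr
            exact h1.trans (by gcongr)
      _ = (c⁻¹ * c) * ((ENNReal.ofReal (q - p))⁻¹ * volume (E ∩ Set.Icc p q)) := by ring
      _ = _ := by rw [ENNReal.inv_mul_cancel hc0 hct, one_mul]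
  · rw [Measure.smul_apply, smul_eq_mul, Measure.restrict_apply_univ, nu, Measure.smul_apply,
      smul_eq_mul, Measure.restrict_apply hJm]
    have h1 : ENNReal.ofReal (3 / 4 * (q - p)) ≤ volume (J ∩ Set.Icc p q) := by
      calc ENNReal.ofReal (3 / 4 * (q - p)) ≤ volume (Set.Icc (p + η) (q - η)) := by
            rw [Real.volume_Icc]
            exact ENNReal.ofReal_le_ofReal (by linarith)
        _ ≤ volume (J ∩ Set.Icc p q) := by
            refine measure_mono fun x hx => ⟨hJs hx, (hJs hx).1⟩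
    calc (1 / 2 : ℝ≥0∞) = ENNReal.ofReal (1 / 2) := by
          rw [ENNReal.ofReal_div_of_pos (by norm_num)]; simp
      _ ≤ ENNReal.ofReal ((121 / 100)⁻¹ * ((q - p)⁻¹ * (3 / 4 * (q - p)))) := by
          refine ENNReal.ofReal_le_ofReal ?_
          have : (q - p)⁻¹ * (3 / 4 * (q - p)) = 3 / 4 := by field_simp
          rw [this]
          norm_num
      _ = c⁻¹ * ((ENNReal.ofReal (q - p))⁻¹ * ENNReal.ofReal (3 / 4 * (q - p))) := by
          rw [ENNReal.ofReal_mul (by norm_num), ENNReal.ofReal_mul (by positivity),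
            ENNReal.ofReal_inv_of_pos (by norm_num), ENNReal.ofReal_inv_of_pos hqp]
      _ ≤ _ := by gcongr

end Pool.Agent.H97.LE
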